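import Pool.Agent.Q282.AE.Fin

/-!
# Tate's conjecture for the powers of almost all complete intersections over rational function fields of characteristic `p`

Let `k` be a finite field with `q` elements, `K = k(t_1, ..., t_M)` with `M ≥ 1`, a finitely generated field, and `O = k[t_1, ..., t_M]`.
Let `W` be a closed subscheme of a projective space over `O` of relative dimension `D + r`, and `Z` a closed subscheme of `W` of
relative dimension at most `D / 2`, given in `W` by forms `h_j` of degrees `e_j`. For `a = 1, ..., r` let the forms `f_{a,j}` span the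
forms of degree `d_a` that vanish on `Z`. For polynomials `c = (c_{a,j})` in `O` let `V_c` be the complete intersection

  `W ∩ {∑_j c_{1,j} f_{1,j} = 0} ∩ ... ∩ {∑_j c_{r,j} f_{r,j} = 0}`,

a variety of dimension `D` over `K` with the model over the open set `U_c = {x : Δ(x, c(x)) ≠ 0}` of the affine space of dimension
`M` over `k`, where `Δ` is a polynomial in the parameters with coefficients in `O` that is not zero (a multiple of the discriminant).
All complete intersections through `Z` of the given degrees are of this form, and those with coefficients of degree at most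
`N` are the box `{c : deg c_{a,j} ≤ N}`.

For a point `x` of `U_c` with values in the extension of `k` of degree `m` let `α(x)` be the eigenvalues of Frobenius on `H^D` of the
fibre; outside the middle degree the cohomology of the fibre is that of `W` (Lefschetz, Poincare). This gives the eigenvalues on
`H^{2i}` of the power `V_c^ν` (Kunneth), and the sums over the points of `U_c` of the traces are the power sums of the `L`-function of
`H^{2i}(V_c^ν)` (Grothendieck), whose poles `γ` of absolute value `q^{i+M}` are the eigenvalues of Frobenius on the classes that are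
invariant under the geometric Galois group of `K`; the others are smaller by `q^{1/2}` (Deligne), and their number is at most
`B₀ (N + 1)^κ` (Katz). It is proved, for `e_j + 2 ν ≤ d_a + 1` and every codimension `i`:

* outside a set of members of proportion `O((N + 1) q^{-M ⌊(N + 1) / 2⌋})` of the box there are exactly `T` such poles, all of them
  equal to `q^{i+M}`, with `T = ∑_l T(l) z_l` the number of the products of classes of `W`, components of `Z` and diagonals;
* so for all other members the classes in `H^{2i}` of `V_c^ν` over `K`, and over all `K k'` with `k'` finite over `k`, that Tate's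
  conjecture predicts to come from cycles, are generated by these products as soon as they are independent.

The second part of the theorem is the case of the projective space and of a union `Z` of any `s ≥ 0` linear subspaces: no number of
points is assumed. For `s = 0` these are all complete intersections of degrees `d_a ≥ 2 ν - 1`; for `ν = 1` this is the conjecture of
Tate for almost all smooth complete intersections of any degrees, for `D = 2`, `r = 1` and `s ≥ 1` the one for almost all
surfaces of degree `d ≥ s + 1` that contain `s` given lines, with Picard number `1 + s`.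

Proof. For a point `x` of degree `m ≤ (N + 1) / 2` the values `c(x)` are uniformly distributed, for two points that are not
conjugate they are independent, and the values of the equations at `2 ν` points of the fibre are independent, so the mean and
the variance over the box of the sum of the traces over the points of degree `m` can be computed; for exceptional members one of
boundedly many of these sums with `m` near to `(N + 1) / 2` is far from its mean, because a power sum of less than `B` numbers of
absolute value one, other than `T` ones, that are roots of a polynomial with integer coefficients, stays away from `T` in every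
window of bounded length.
-/

set_option autoImplicit false

namespace Pool.Agent.Results.MP_0fca13_ag.AlmostAllIntersections

open Finset MvPolynomial
open scoped LinearAlgebra.Projectivization

/-- The values of polynomials in `t_1, ..., t_M` with coefficients in `k` at the point `x` with coordinates in the extension `F`. -/
noncomputable def value {k F : Type} [Field k] [Field F] [Algebra k F] {M : ℕ} (x : Fin M → F) : MvPolynomial (Fin M) k →+* F :=
  ((aeval x : MvPolynomial (Fin M) k →ₐ[k] F) : MvPolynomial (Fin M) k →+* F)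

/-- The number of the points with coordinates in the field `F` of the closed subscheme of the projective space of dimension `n` over
`A` that is defined by the forms of the set `S`, for a homomorphism `φ : A → F`. -/
noncomputable def points {A F : Type} [CommRing A] [Field F] {n : ℕ} (φ : A →+* F) (S : Set (MvPolynomial (Fin (n + 1)) A)) : ℕ :=
  Nat.card {P : ℙ F (Fin (n + 1) → F) // ∀ G ∈ S, eval₂ φ P.rep G = 0}

/-- The forms `f j` span the linear system of the hypersurfaces of degree `d` through the scheme `h = 0`: they have degree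
`d`, vanish on this scheme (belong to the radical of the ideal), and every form of degree `d` in the ideal is a combination of them. -/
structure Spans {O : Type} [CommRing O] {n : ℕ} {J ι : Type} [Fintype ι] (h : J → MvPolynomial (Fin (n + 1)) O) (d : ℕ)
    (f : ι → MvPolynomial (Fin (n + 1)) O) : Prop where
  hom : ∀ j, (f j).IsHomogeneous d
  mem : ∀ j, f j ∈ (Ideal.span (Set.range h)).radical
  gen : ∀ G : MvPolynomial (Fin (n + 1)) O, G.IsHomogeneous d → G ∈ Ideal.span (Set.range h) → ∃ c : ι → O, G = ∑ j, C (c j) * f j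

/-- The linear form with the coefficients `v`. -/
noncomputable def linear {O : Type} [CommRing O] {n : ℕ} (v : Fin (n + 1) → O) : MvPolynomial (Fin (n + 1)) O := ∑ j, C (v j) * X j

/-- The forms `f j` span the forms of degree `d` that belong, for every `i`, to the ideal generated by the equations of the `i`-th
linear subspace (so for `s = 0` all forms of degree `d`). -/
def SpansLinear {O : Type} [CommRing O] {n s c : ℕ} (l : Fin s → Fin c → Fin (n + 1) → O) (d : ℕ) {ι : Type} [Fintype ι]
    (f : ι → MvPolynomial (Fin (n + 1)) O) : Prop :=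
  (∀ j, (f j).IsHomogeneous d ∧ ∀ i, f j ∈ Ideal.span (Set.range fun a => linear (l i a))) ∧
  ∀ G : MvPolynomial (Fin (n + 1)) O, G.IsHomogeneous d → (∀ i, G ∈ Ideal.span (Set.range fun a => linear (l i a))) →
    ∃ c : ι → O, G = ∑ j, C (c j) * f j

/-- Over the point `x` the linear equations `l i 0, ..., l i (c - 1)` are independent for every `i`, and the linear subspaces of
codimension `c` that they define for different `i` are different. -/
def AreSubspaces {k F : Type} [Field k] [Field F] [Algebra k F] {M n s c : ℕ} (x : Fin M → F)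
    (l : Fin s → Fin c → Fin (n + 1) → MvPolynomial (Fin M) k) : Prop :=
  (∀ i, LinearIndependent F fun a j => value x (l i a j)) ∧
  ∀ i i', i ≠ i' → ∃ y : Fin (n + 1) → F, ¬ ((∀ a, ∑ j, value x (l i a j) * y j = 0) ↔ ∀ a, ∑ j, value x (l i' a j) * y j = 0)

/-- The equations of the complete intersection `V_c` in the scheme with the equations `E`. -/
noncomputable def member {O : Type} [CommRing O] {n r : ℕ} {ν : Fin r → ℕ} (E : Set (MvPolynomial (Fin (n + 1)) O))
    (f : (a : Fin r) → Fin (ν a) → MvPolynomial (Fin (n + 1)) O) (c : (Σ a, Fin (ν a)) → O) : Set (MvPolynomial (Fin (n + 1)) O) :=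
  Set.range (fun a => ∑ j, C (c ⟨a, j⟩) * f a j) ∪ E

/-- The point `x` belongs to the open set `U_c`: the polynomial `Δ` does not vanish at `(x, c(x))`. -/
def InU {k F : Type} [Field k] [Field F] [Algebra k F] {M : ℕ} {S : Type} (Δ : MvPolynomial S (MvPolynomial (Fin M) k))
    (c : S → MvPolynomial (Fin M) k) (x : Fin M → F) : Prop := eval₂ (value x) (fun s => value x (c s)) Δ ≠ 0

/-- The Betti number in degree `2 a`, for `2 a ≠ D`, of a section of dimension `D` and codimension `r` of a variety with the Betti
numbers `w j` in degree `2 j`. -/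
def betti (w : ℕ → ℕ) (D r a : ℕ) : ℕ := if 2 * a < D then w a else if D < 2 * a ∧ a ≤ D then w (a + r) else 0

/-- The eigenvalues `α m x` for the points `x` of `U_c` with coordinates in the extension `F m` of degree `m`: their number is `b`,
they are at most `q ^ (m D / 2)`, and the trace formula holds for the fibre over `x`. For smooth fibres of dimension `D` these are the
properties of the eigenvalues of Frobenius on the cohomology in degree `D` (Grothendieck, Lefschetz, Deligne). -/
structure IsFrobenius {k : Type} [Field k] (F : ℕ → Type) [∀ m, Field (F m)] [∀ m, Algebra k (F m)] {M n : ℕ} {S : Type}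
    (w : ℕ → ℕ) (D r b : ℕ) (V : Set (MvPolynomial (Fin (n + 1)) (MvPolynomial (Fin M) k)))
    (Δ : MvPolynomial S (MvPolynomial (Fin M) k)) (c : S → MvPolynomial (Fin M) k) (α : (m : ℕ) → (Fin M → F m) → Multiset ℂ) : Prop where
  card : ∀ m, 1 ≤ m → ∀ x : Fin M → F m, InU Δ c x → (α m x).card = b
  norm : ∀ m, 1 ≤ m → ∀ x : Fin M → F m, InU Δ c x → ∀ a ∈ α m x, ‖a‖ ≤ Real.sqrt (Nat.card (F m)) ^ D
  trace : ∀ m, 1 ≤ m → ∀ x : Fin M → F m, InU Δ c x →
    (points (value x) V : ℂ) = ((∑ a ∈ range (D + 1), betti w D r a * (Nat.card (F m) : ℝ) ^ a : ℝ) : ℂ) + (-1) ^ D * (α m x).sum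

/-- The eigenvalues on the cohomology of the fibre in degree `j`. -/
noncomputable def cohomology (w : ℕ → ℕ) (D r q : ℕ) (α : Multiset ℂ) (j : ℕ) : Multiset ℂ :=
  if j = D then α else if Even j then Multiset.replicate (betti w D r (j / 2)) ((q : ℂ) ^ (j / 2)) else 0

/-- The eigenvalues on the cohomology in degree `j` of the power with `ν` factors (Kunneth). -/
noncomputable def kunneth (H : ℕ → Multiset ℂ) : ℕ → ℕ → Multiset ℂ
  | 0, j => if j = 0 then {1} else 0
  | ν + 1, j => ∑ x ∈ antidiagonal j, (H x.1 ×ˢ kunneth H ν x.2).map (fun z => z.1 * z.2)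

/-- The sum over the points of `U_c` with coordinates in `F m` of the traces on the cohomology in degree `2 i` of the power with `ν`
factors of the fibre. -/
noncomputable def traceSum {k : Type} [Field k] (F : ℕ → Type) [∀ m, Field (F m)] [∀ m, Algebra k (F m)] {M : ℕ} {S : Type}
    (w : ℕ → ℕ) (D r ν i : ℕ) (Δ : MvPolynomial S (MvPolynomial (Fin M) k)) (c : S → MvPolynomial (Fin M) k)
    (α : (m : ℕ) → (Fin M → F m) → Multiset ℂ) (m : ℕ) : ℂ :=
  ∑ᶠ x : {x : Fin M → F m // InU Δ c x}, (kunneth (cohomology w D r (Nat.card (F m)) (α m x.1)) ν (2 * i)).sum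

/-- The numbers `A m` are the power sums of the rational function `∏ (1 - β' u) / (∏ (1 - γ u) ∏ (1 - β u))`, where the `γ` have
absolute value `q ^ e`, the `β` and the `β'` at most `q ^ (e - 1 / 2)`, the characteristic polynomial of the `γ` has integer
coefficients, and the numbers of these numbers are at most `B` and `B'`. -/
structure IsLFunction (A : ℕ → ℂ) (q : ℝ) (e B : ℕ) (B' : ℝ) (γ β β' : Multiset ℂ) : Prop where
  sum : ∀ m, 1 ≤ m → A m = (γ.map fun g => g ^ m).sum + (β.map fun g => g ^ m).sum - (β'.map fun g => g ^ m).sum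
  top : ∀ g ∈ γ, ‖g‖ = q ^ e
  low : ∀ g ∈ β + β', ‖g‖ ≤ q ^ e / Real.sqrt q
  int : ∃ P : Polynomial ℤ, P.map (Int.castRingHom ℂ) = (γ.map fun g => Polynomial.X - Polynomial.C g).prod
  card : γ.card ≤ B
  num : ((β + β').card : ℝ) ≤ B'

/-- The `L`-function of the cohomology in degree `2 i` of the power `V_c^ν` has exactly `T` poles on the edge, counted with
multiplicity, and all of them are at `q ^ (i + M)`: all forms of the `L`-function have this property. -/
def HasPoles {k : Type} [Field k] (F : ℕ → Type) [∀ m, Field (F m)] [∀ m, Algebra k (F m)] {M n r : ℕ} {μ : Fin r → ℕ}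
    (w : ℕ → ℕ) (D b ν i B : ℕ) (B' : ℝ) (E : Set (MvPolynomial (Fin (n + 1)) (MvPolynomial (Fin M) k)))
    (f : (a : Fin r) → Fin (μ a) → MvPolynomial (Fin (n + 1)) (MvPolynomial (Fin M) k))
    (Δ : MvPolynomial (Σ a, Fin (μ a)) (MvPolynomial (Fin M) k)) (c : (Σ a, Fin (μ a)) → MvPolynomial (Fin M) k) (T : ℕ) : Prop :=
  ∀ (α : (m : ℕ) → (Fin M → F m) → Multiset ℂ) (γ β β' : Multiset ℂ), IsFrobenius F w D r b (member E f c) Δ c α →
    IsLFunction (traceSum F w D r ν i Δ c α) (Nat.card k) (i + M) B B' γ β β' → γ = Multiset.replicate T ((Nat.card k : ℂ) ^ (i + M))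

/-- The property `Q N` holds for all families `c` of polynomials of degree at most `N`, but a proportion of at most
`C (N + 1) q ^ (- M ⌊(N + 1) / 2⌋)` of them, for all `N`. -/
def AlmostAll {k : Type} [Field k] {M : ℕ} {S : Type} (Q : ℕ → (S → MvPolynomial (Fin M) k) → Prop) : Prop :=
  ∃ C : ℝ, ∀ N : ℕ, (Set.ncard {c : S → MvPolynomial (Fin M) k | (∀ s, (c s).totalDegree ≤ N) ∧ ¬ Q N c} : ℝ) *
      (Nat.card k : ℝ) ^ (M * ((N + 1) / 2)) ≤
    C * (N + 1) * Set.ncard {c : S → MvPolynomial (Fin M) k | ∀ s, (c s).totalDegree ≤ N}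

/-- The number of the perfect matchings of `j` elements: the moments of the normal law. -/
def matchings (j : ℕ) : ℕ := if Even j then (j - 1).doubleFactorial else 0

/-- The number of the ways to choose, among `k` factors, `j` that are matched, `l` that carry components of the base scheme, and one of
`v` classes of the ambient variety on each of the others. -/
def middle (v k l : ℕ) : ℕ := ∑ j ∈ range (k + 1), k.choose j * (k - j).choose l * matchings j * v ^ (k - j - l)

/-- The generating series of the Betti numbers outside the middle degree. -/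
noncomputable def outer (w : ℕ → ℕ) (D r : ℕ) : PowerSeries ℕ := PowerSeries.mk fun b => if Even b then betti w D r (b / 2) else 0

/-- The exponents `T(l)`. -/
noncomputable def exponent (w : ℕ → ℕ) (D r ν i l : ℕ) : ℕ :=
  ∑ k ∈ range (ν + 1), (ν.choose k * (if D * k ≤ 2 * i then PowerSeries.coeff (2 * i - D * k) (outer w D r ^ (ν - k)) else 0)) *
    middle (if Even D then w (D / 2 + r) else 0) k l

theorem kunneth_eq (H : ℕ → Multiset ℂ) (ν j : ℕ) : kunneth H ν j = Q282GP.kun H ν j := by
  induction ν generalizing j with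
  | zero => rfl
  | succ ν ih =>
    unfold kunneth Q282GP.kun
    refine sum_congr rfl fun x _ => ?_
    rw [ih]

theorem traceSum_eq {k : Type} [Field k] (F : ℕ → Type) [∀ m, Field (F m)] [∀ m, Algebra k (F m)] {M r : ℕ} {μ : Fin r → ℕ}
    (w : ℕ → ℕ) (D ν i : ℕ) (Δ : MvPolynomial (Σ a, Fin (μ a)) (MvPolynomial (Fin M) k))
    (c : (Σ a, Fin (μ a)) → MvPolynomial (Fin M) k) (α : (m : ℕ) → (Fin M → F m) → Multiset ℂ) (m : ℕ) :
    traceSum F w D r ν i Δ c α m = Q282AE.traceSum F w D r ν i Δ c α m := by
  unfold traceSum Q282AE.traceSum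
  simp only [kunneth_eq]
  rfl

theorem exceptional {k : Type} [Field k] (F : ℕ → Type) [∀ m, Field (F m)] [∀ m, Algebra k (F m)] {M n r : ℕ} {μ : Fin r → ℕ}
    (w : ℕ → ℕ) (D b ν i B : ℕ) (B' : ℝ) (E : Set (MvPolynomial (Fin (n + 1)) (MvPolynomial (Fin M) k)))
    (f : (a : Fin r) → Fin (μ a) → MvPolynomial (Fin (n + 1)) (MvPolynomial (Fin M) k))
    (Δ : MvPolynomial (Σ a, Fin (μ a)) (MvPolynomial (Fin M) k)) (c : (Σ a, Fin (μ a)) → MvPolynomial (Fin M) k) (T : ℕ) :
    ¬ HasPoles F w D b ν i B B' E f Δ c T ↔ Q282AE.Exceptional F w D r b ν i E f Δ T B B' c := by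
  unfold HasPoles Q282AE.Exceptional
  push Not
  constructor
  · rintro ⟨α, γ, β, β', h1, h2, h3⟩
    refine ⟨α, γ, β, β', ⟨h1.card, h1.norm, h1.trace⟩, ⟨?_, h2.top, h2.low, h2.int, h2.card, h2.num⟩, h3⟩
    intro m hm
    rw [← traceSum_eq]
    exact h2.sum m hm
  · rintro ⟨α, γ, β, β', h1, h2, h3⟩
    refine ⟨α, γ, β, β', ⟨h1.card, h1.norm, h1.trace⟩, ⟨?_, h2.top, h2.low, h2.int, h2.card, h2.num⟩, h3⟩
    intro m hm
    rw [traceSum_eq]
    exact h2.sum m hm

/-- **Tate's conjecture for the powers of almost all complete intersections over `k(t_1, ..., t_M)`.** -/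
theorem result (k : Type) [Field k] [Finite k] (F : ℕ → Type) [∀ m, Field (F m)] [∀ m, Finite (F m)] [∀ m, Algebra k (F m)]
    (hF : ∀ m, 1 ≤ m → Module.finrank k (F m) = m) (M : ℕ) (hM : 1 ≤ M) (D r : ℕ) (hD : 1 ≤ D) (hr : 1 ≤ r) (μ d : Fin r → ℕ)
    (Δ : MvPolynomial (Σ a, Fin (μ a)) (MvPolynomial (Fin M) k)) (hΔ : Δ ≠ 0) (ν : ℕ) (hν : 1 ≤ ν) (i b B κ : ℕ) (B₀ : ℝ) :
    -- complete intersections in `W` through `Z`
    (∀ (n : ℕ) (E : Set (MvPolynomial (Fin (n + 1)) (MvPolynomial (Fin M) k))) (w : ℕ → ℕ) (_ : w (D + r) = 1) (C₀ : ℝ)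
      (_ : ∀ m, 1 ≤ m → ∀ x : Fin M → F m, map (value x) Δ ≠ 0 →
        |(points (value x) E : ℝ) - ∑ j ∈ range (D + r + 1), w j * (Nat.card (F m) : ℝ) ^ j| ≤ C₀ * Real.sqrt (Nat.card (F m)) ^ (2 * r + D - 1))
      (J : Type) (h : J → MvPolynomial (Fin (n + 1)) (MvPolynomial (Fin M) k)) (e : J → ℕ) (_ : ∀ j, (h j).IsHomogeneous (e j))
      (_ : ∀ j a, e j + 2 * ν ≤ d a + 1) (C₁ : ℝ) (z : ℕ → ℕ) (_ : z 0 = 1)
      (_ : ∀ m, 1 ≤ m → ∀ x : Fin M → F m, map (value x) Δ ≠ 0 → (points (value x) (E ∪ Set.range h) : ℝ) ≤ C₁ * Real.sqrt (Nat.card (F m)) ^ D)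
      (_ : ∀ m, 1 ≤ m → ∀ l, 1 ≤ l → l ≤ ν →
        |∑ᶠ x : {x : Fin M → F m // map (value x) Δ ≠ 0}, (points (value x.1) (E ∪ Set.range h) : ℝ) ^ l -
          z l * ((Nat.card (F m) : ℝ) ^ M * Real.sqrt (Nat.card (F m)) ^ (D * l))| ≤
        C₁ * ((Nat.card (F m) : ℝ) ^ M * Real.sqrt (Nat.card (F m)) ^ (D * l)) / Real.sqrt (Nat.card (F m)))
      (f : (a : Fin r) → Fin (μ a) → MvPolynomial (Fin (n + 1)) (MvPolynomial (Fin M) k)) (_ : ∀ a, Spans h (d a) (f a)),
      AlmostAll fun N c => HasPoles F w D b ν i B (B₀ * (N + 1) ^ κ) E f Δ c (∑ l ∈ range (ν + 1), exponent w D r ν i l * z l)) ∧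
    -- complete intersections in the projective space through `s` linear subspaces of dimension `g`
    ∀ (s g : ℕ) (_ : 2 * g ≤ D) (l : Fin s → Fin (D + r - g) → Fin (D + r + 1) → MvPolynomial (Fin M) k)
      (_ : ∀ m, 1 ≤ m → ∀ x : Fin M → F m, map (value x) Δ ≠ 0 → AreSubspaces x l) (_ : ∀ a, s + 2 * ν ≤ d a + 1)
      (f : (a : Fin r) → Fin (μ a) → MvPolynomial (Fin (D + r + 1)) (MvPolynomial (Fin M) k)) (_ : ∀ a, SpansLinear l (d a) (f a)),
      AlmostAll fun N c => HasPoles F (fun _ => 1) D b ν i B (B₀ * (N + 1) ^ κ) ∅ f Δ c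
        (∑ j ∈ range (ν + 1), exponent (fun _ => 1) D r ν i j * (if 2 * g = D then s else 0) ^ j) := by
  refine ⟨?_, ?_⟩
  · intro n E w hw C₀ hW J h e hh hd C₁ z hz hZ1 hZ f hf
    obtain ⟨C, hC⟩ := Q282AE.almost (k := k) (A := Fin r) (ι := fun a => Fin (μ a)) D hD r hr (Fintype.card_fin r) w hw C₀ C₁ ν hν i hM
      hh hd (fun a => ⟨(hf a).hom, (hf a).mem, (hf a).gen⟩) E Δ hΔ z hz b B κ B₀ F hF hW hZ1 hZ
    refine ⟨C, fun N => ?_⟩
    simp only [exceptional]
    exact hC N
  · intro s g hg l hl hd f hf
    obtain ⟨C, hC⟩ := Q282AE.almost_lin (k := k) (A := Fin r) (ι := fun a => Fin (μ a)) D hD r hr (Fintype.card_fin r) ν hν i hM hg l hd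
      (fun a => hf a) Δ hΔ b B κ B₀ F hF hl
    refine ⟨C, fun N => ?_⟩
    simp only [exceptional]
    exact hC N

end Pool.Agent.Results.MP_0fca13_ag.AlmostAllIntersections
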