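import Pool.Agent.Q45.OI.P.QB
import Pool.Agent.Q45.OI.K.LC
import Pool.Agent.Q45.OI.J.LEMX
import Pool.Agent.Q45.OI.J.ORTH

/-!
# Products of double covers over arbitrary base curves with an arbitrary variety

Let `k` be a field of characteristic different from `2`, with separable closure `k'`. For `i` in a finite
set let `D_i` be an affine curve over `k` with function field `K_i`, finite over the line, `F_i = K_i k'`,
`B_i` the Dedekind domain of the functions on `D_i` over `k'` (the integral closure of `k'[t]` in `F_i`),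
and `P_i` a monic polynomial of odd degree over `B_i`, with coefficients in `K_i` and separable, such that
the ring `S_i = B_i[x] / (P_i)` is a Dedekind domain: the branch curve `C_i : P_i = 0` in `D_i × A^1` is
regular and irreducible over `k'`. Let `X_i` be the double cover `w ^ 2 = P_i` of `D_i × A^1`, so `X_i` is
any hyperelliptic fibration over `D_i` with a section at infinity and a regular branch curve (for the
degree three: the elliptic surfaces `w ^ 2 = x ^ 3 + a x + b`), `J_i` the Jacobian of the generic fibre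
over `K_i`, and `M_i` the `ℤ_2`-module of the classes of the continuous cocycles of `Gal(Sep F_i / F_i)`
with values in the Tate module `T_2 J_i` which are locally trivial at all the maximal ideals of `B_i`, with
the action of `Gal(k' / k)`.

Let `L_i` be the field of fractions of `S_i`, and `V_i` the group of the elements of `L_iˣ` whose
fractional ideal is a square and whose norm in `F_i` is a square, modulo the squares; if the places at
infinity of `D_i` and `C_i` are single then `V_i` is the kernel of the norm from the points of order `2` of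
the Jacobian of `C_i` to those of the Jacobian of `D_i`. Suppose that the `V_i` are finite, and let `A_i` be
the action of `Gal(k' / k)` on `V_i`.

Let `N` be ANY free `ℤ_2`-module of finite rank with an action of `Gal(k' / k)`, for instance the cohomology
of any variety over `k`.

(1) Suppose that each `V_i` has at least `8` elements, that the image of each `A_i` is large (the
definition is below), and that for each `i` some element of `Gal(k' / k)` acts on `V_i` with order `3` and
acts trivially on the other `V_j` and on `N / 2 N`. Then the `M_i` are free of finite rank. Let `β_i` be an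
invariant symmetric bilinear form different from zero on `M_i`, suppose that the image of `Gal(k' / k)` in
`Aut (M_i)` contains an element which is `1` modulo `4` and different from `1`, and let `E` be an
extension of `k` in `k'` which is reached from `k` by finitely many steps, each of which is a finite
extension or an extension (possibly infinite) inside the maximal abelian extension. Then there is a `j` such
that for all `α_i` in `O(M_i, β_i)` which are `1` modulo `2 ^ j`:

* for all `n` some `σ` in `Gal(k' / E)` acts on each `M_i` as `α_i` modulo `2 ^ n`, and acts on `N` as `1`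
  modulo `2 ^ n` (the image is open in the product of the orthogonal groups, and independent of `N`);
* each `Gal(k' / E)`-equivariant multilinear map `Φ` from a product of modules `M_i` to `N` is invariant
  under the `α_i`: `Φ(α x) = Φ(x)` (so the Tate classes on the products of powers of the `X_i` and a variety
  `Y` come from those of `Y` and from the invariants of the orthogonal groups).

(2) The hypotheses in (1) on the `V_i` and `N` are satisfied if each `V_i` has at least `64` elements and a
nondegenerate quadratic form `q_i` such that for each `v` in `V_i` with `q_i(v) = 1` some element of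
`Gal(k' / k)` acts on `V_i` as the transvection in `v` and acts trivially on the other `V_j` and on `N / 2 N`.
-/

set_option autoImplicit false
set_option linter.all false

open Polynomial IsDedekindDomain
open scoped Classical nonZeroDivisors

namespace Pool.Agent.Results.MP_0fca13_ag.DoubleCoversTimesAnyVariety

open Pool.Agent.Y160.SL
open Pool.Agent.TH115.GD (rs ak Sep Comp)

/-- The polynomials over `k` and `k'` are elements of the fields `K` and `F`, and `F` is generated over `K`
by the constants in `k'`. -/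
structure IsConstantExtension (k k' K F : Type) [Field k] [Field k'] [Algebra k k'] [Field K]
    [Algebra k[X] K] [Field F] [Algebra k'[X] F] [Algebra K F] : Prop where
  injective : Function.Injective (algebraMap k'[X] F)
  comp : ∀ p : k[X], algebraMap K F (algebraMap k[X] K p) =
    algebraMap k'[X] F (p.map (algebraMap k k'))
  generated : IntermediateField.adjoin K (Set.range ((algebraMap k'[X] F).comp C)) = ⊤

/-- The conditions on the polynomial `P` over `B` of the branch curve, which is the image of the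
polynomial `f` over `K`: it is monic of odd degree and separable. -/
structure IsBranchPolynomial (k : Type) [Field k] {K F B : Type} [Field K] [Field F] [Algebra K F]
    [CommRing B] [Algebra B F] (P : B[X]) (f : K[X]) : Prop where
  two : (2 : k) ≠ 0
  monic : P.Monic
  odd : Odd P.natDegree
  separable : f.Separable
  map_eq : P.map (algebraMap B F) = f.map (algebraMap K F)

section curve

/-- The elements of `Lˣ` whose fractional ideal is a square and whose norm is a square. -/
def evenGroup (F S L : Type) [Field F] [CommRing S] [IsDedekindDomain S] [Field L] [Algebra S L]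
    [IsFractionRing S L] [Algebra F L] : Subgroup Lˣ where
  carrier := {z | (∃ I : FractionalIdeal S⁰ L, FractionalIdeal.spanSingleton S⁰ (z : L) = I ^ 2) ∧
    ∃ y : F, Algebra.norm F (z : L) = y ^ 2}
  mul_mem' := fun {z w} hz hw => ⟨(Pool.Agent.Q45.GM.evS S L).mul_mem' hz.1 hw.1, by
    obtain ⟨y, hy⟩ := hz.2
    obtain ⟨y', hy'⟩ := hw.2
    exact ⟨y * y', by rw [Units.val_mul, map_mul, hy, hy', mul_pow]⟩⟩
  one_mem' := ⟨(Pool.Agent.Q45.GM.evS S L).one_mem', 1, by rw [Units.val_one, map_one, one_pow]⟩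
  inv_mem' := fun {z} hz => ⟨(Pool.Agent.Q45.GM.evS S L).inv_mem' hz.1, by
    obtain ⟨y, hy⟩ := hz.2
    refine ⟨y⁻¹, ?_⟩
    have h1 : Algebra.norm F (z : L) * Algebra.norm F ((z⁻¹ : Lˣ) : L) = 1 := by
      rw [← map_mul, ← Units.val_mul, mul_inv_cancel, Units.val_one, map_one]
    rw [hy] at h1
    rw [inv_pow]
    exact eq_inv_of_mul_eq_one_right h1⟩

/-- The squares. -/
def squares (L : Type) [Field L] : Subgroup Lˣ := (powMonoidHom 2 : Lˣ →* Lˣ).range

variable {k k' : Type} [Field k] [Field k'] [Algebra k k'] (K : Type) [Field K] {F : Type} [Field F]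
  [Algebra K F] [Algebra k'[X] F] {B : Type} [CommRing B] (P : B[X]) (L : Type) [Field L]
  [Algebra F L] [Algebra (AdjoinRoot P) L]

/-- The automorphism `e` of the field `L` of the functions on the curve `P = 0` fixes `K` and the
coordinate `x`. -/
def FixesBase (e : L ≃+* L) : Prop :=
  (∀ x : K, e (algebraMap F L (algebraMap K F x)) = algebraMap F L (algebraMap K F x)) ∧
    e (algebraMap (AdjoinRoot P) L (AdjoinRoot.root P)) =
      algebraMap (AdjoinRoot P) L (AdjoinRoot.root P)

/-- The automorphism `e` of `L` extends the automorphism `σ` of the constants. -/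
def Extends (F : Type) [Field F] [Algebra k'[X] F] [Algebra F L] (σ : k' ≃ₐ[k] k') (e : L ≃+* L) :
    Prop :=
  ∀ x : k', e (algebraMap F L (algebraMap k'[X] F (C x))) =
    algebraMap F L (algebraMap k'[X] F (C (σ x)))

/-- The automorphisms of `Lˣ` induced by the automorphisms of `L` which fix `K` and the coordinate `x` and
extend the automorphism `σ` of the constants. -/
def autUnits (F : Type) [Field F] [Algebra K F] [Algebra k'[X] F] [Algebra F L] (σ : k' ≃ₐ[k] k') :
    Set (Lˣ →* Lˣ) :=
  {φ | ∃ e : L ≃+* L, FixesBase K (F := F) P L e ∧ Extends L F σ e ∧ φ = Units.map (e : L →* L)}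

end curve

/-- The group `V` is the quotient `Ev / Sq`, through the map `cl`, and `A` is the action of the group `G`
on `V` which is induced by the endomorphisms in `R σ`, for `σ` in `G`. -/
structure IsGaloisAction {G H : Type} [Group G] [CommGroup H] (Sq Ev : Subgroup H)
    (R : G → Set (H →* H)) {V : Type} [AddCommGroup V] (cl : H → V) (A : G →* (AddMonoid.End V)ˣ) :
    Prop where
  add : ∀ z ∈ Ev, ∀ w ∈ Ev, cl (z * w) = cl z + cl w
  zero : ∀ z ∈ Ev, cl z = 0 ↔ z ∈ Sq
  surj : ∀ v, ∃ z ∈ Ev, cl z = v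
  act : ∀ σ, ∃ φ ∈ R σ, ∀ z ∈ Ev, cl (φ z) = (A σ).val (cl z)

section large

variable {V : Type} [AddCommGroup V] (Γ : Subgroup (AddMonoid.End V)ˣ)

/-- The stable subgroups of `V` are `0` and `V`. -/
def IsIrreducibleGroup : Prop :=
  ∀ U : AddSubgroup V, (∀ g ∈ Γ, ∀ v ∈ U, g.val v ∈ U) → U = ⊥ ∨ U = ⊤

/-- The endomorphism `A` is `0` or `1`. -/
def IsScalar (A : V →+ V) : Prop := (∀ v, A v = 0) ∨ ∀ v, A v = v

/-- The endomorphisms of `V` which commute with `Γ` are `0` and `1`. -/
def HasScalarCommutant : Prop :=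
  ∀ A : V →+ V, (∀ g ∈ Γ, ∀ v, A (g.val v) = g.val (A v)) → IsScalar A

/-- `β` is a nondegenerate alternating form on `V`, invariant under `Γ`. -/
structure IsAlternatingForm (β : V → V → ZMod 2) : Prop where
  add : ∀ u v w, β (u + v) w = β u w + β v w
  add' : ∀ u v w, β u (v + w) = β u v + β u w
  alt : ∀ v, β v v = 0
  nondegenerate : ∀ v, (∀ w, β v w = 0) → v = 0
  inv : ∀ g ∈ Γ, ∀ v w, β (g.val v) (g.val w) = β v w

/-- The group `U` of endomorphisms is stable under conjugation by `Γ`. -/
def IsStable (U : AddSubgroup (V →+ V)) : Prop :=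
  ∀ g ∈ Γ, ∀ A ∈ U, ∀ A' : V →+ V, (∀ v, A' (g.val v) = g.val (A v)) → A' ∈ U

/-- For each invariant form `β`, a stable group of endomorphisms `A` with `β (A v) v = 0` is contained in
`{0, 1}` or has index at most two in the group of all such endomorphisms. -/
def HasFewSkew : Prop :=
  ∀ β : V → V → ZMod 2, IsAlternatingForm Γ β → ∀ U : AddSubgroup (V →+ V),
    (∀ A ∈ U, ∀ v, β (A v) v = 0) → IsStable Γ U →
      (∀ A ∈ U, IsScalar A) ∨ Nat.card {A : V →+ V // ∀ v, β (A v) v = 0} ≤ 2 * Nat.card U

/-- The group `Γ` is large. -/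
structure IsLarge : Prop where
  irreducible : IsIrreducibleGroup Γ
  scalar : ∀ Γ' : Subgroup (AddMonoid.End V)ˣ, Γ' ≤ Γ → Γ'.relIndex Γ ∣ 2 → HasScalarCommutant Γ'
  skew : HasFewSkew Γ

/-- The polar form of `q`. -/
def polarForm (q : V → ZMod 2) (x y : V) : ZMod 2 := q (x + y) + q x + q y

/-- `q` is a nondegenerate quadratic form on `V`. -/
structure IsQuadratic (q : V → ZMod 2) : Prop where
  add : ∀ x y z, polarForm q (x + y) z = polarForm q x z + polarForm q y z
  nondegenerate : ∀ x, (∀ y, polarForm q x y = 0) → x = 0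

end large

section several

variable {G ι : Type} [Group G] {V : ι → Type} [∀ i, AddCommGroup (V i)]
  (A : ∀ i, G →* (AddMonoid.End (V i))ˣ) {N : Type} [AddCommGroup N] [Module ℤ_[2] N]
  (ν : G →* Module.End ℤ_[2] N)

/-- The element `σ` acts trivially on the `V j`, `j ≠ i`, and on `N / 2 N`. -/
def IsTrivialOff (i : ι) (σ : G) : Prop :=
  (∀ j, j ≠ i → A j σ = 1) ∧ ∀ y, ∃ z, ν σ y - y = (2 : ℤ_[2]) • z

/-- The actions of `G` on the `V i` are large and independent, also of the action on `N`. -/
structure AreIndependent : Prop where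
  card : ∀ i, 8 ≤ Nat.card (V i)
  large : ∀ i, IsLarge (A i).range
  order : ∀ i, ∃ σ, A i σ ^ 3 = 1 ∧ A i σ ≠ 1 ∧ IsTrivialOff A ν i σ

/-- `V i` has at least `64` elements and a nondegenerate quadratic form `q`, and for each `v` with
`q v = 1` some element of `G` acts as the transvection in `v` on `V i` and trivially on the other `V j` and
on `N / 2 N`. -/
def HasTransvections (i : ι) : Prop :=
  64 ≤ Nat.card (V i) ∧ ∃ q : V i → ZMod 2, IsQuadratic q ∧
    ∀ v, q v = 1 → ∃ σ, (∀ x, (A i σ).val x = if polarForm q x v = 0 then x else x + v) ∧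
      IsTrivialOff A ν i σ

end several

section gen

variable {K F Ω : Type} [Field K] [Field F] [Field Ω] [Algebra K F] [Algebra F Ω] [Algebra K Ω]
  [IsScalarTower K F Ω] (f : K[X])

/-- The sequences of cochains of `Gal(Ω / F)` with values in `J(Ω)`. -/
abbrev Cochain (F Ω : Type) [Field F] [Field Ω] [Algebra K Ω] [Algebra F Ω] (f : K[X]) : Type :=
  ℕ → (Ω ≃ₐ[F] Ω) → Jac 2 f Ω

/-- `c` is the coboundary of an element `R` of the Tate module `T_2 J`. -/
def IsTateCoboundary (c : Cochain F Ω f) : Prop :=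
  ∃ R : ℕ → Jac 2 f Ω, IsTM 2 2 f R ∧ ∀ n, IsCobOf 2 f (c n) (R n)

/-- The map `κ` identifies with `M` the group of the classes of the cocycles with the property `P`:
it is additive and surjective on these cocycles, and `κ c = 0` if and only if `c` is the coboundary of
an element of the Tate module. -/
structure IsClassMap (P : Cochain F Ω f → Prop) (M : Type) [AddCommGroup M]
    (κ : Cochain F Ω f → M) : Prop where
  surj : ∀ m, ∃ c, P c ∧ κ c = m
  add : ∀ c d, P c → P d → κ (c + d) = κ c + κ d
  zero : ∀ c, P c → (κ c = 0 ↔ IsTateCoboundary f c)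

/-- `d` is the transform of the cochain `c` by the automorphism `T` of `Ω` over `K`:
`d (σ) = T (c (σ'))`, where `σ' = T⁻¹ σ T`. -/
def IsTransform (T : Ω ≃ₐ[K] Ω) (c d : Cochain F Ω f) : Prop :=
  ∀ n (σ σ' : Ω ≃ₐ[F] Ω), (∀ x, T (σ' x) = σ (T x)) → d n σ = jm 2 f (ak T) (c n σ')

/-- The endomorphism `φ` of `M` is induced by the automorphism `T` of `Ω` over `K`. -/
def IsInduced (P : Cochain F Ω f → Prop) {M : Type} (κ : Cochain F Ω f → M) (T : Ω ≃ₐ[K] Ω)
    (φ : M → M) : Prop :=
  ∀ c d, P c → IsTransform f T c d → P d ∧ κ d = φ (κ c)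

end gen

section rep

variable {G M : Type} [Group G] [AddCommGroup M] [Module ℤ_[2] M] (A : G → (M →ₗ[ℤ_[2]] M) → Prop)
  (β : M → M → ℤ_[2])

/-- `β` is a symmetric bilinear form different from zero on `M` which is invariant under the action; `A T φ`
means that `T` in the group `G` acts on `M` as `φ`. -/
structure IsInvariantForm : Prop where
  add : ∀ x y z, β (x + y) z = β x z + β y z
  smul : ∀ (c : ℤ_[2]) x y, β (c • x) y = c * β x y
  symm : ∀ x y, β x y = β y x
  ne : ∃ x y, β x y ≠ 0
  inv : ∀ T φ, A T φ → ∀ x y, β (φ x) (φ y) = β x y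

/-- Some element of the image of `G` is congruent to `1` modulo `4` and different from `1`. -/
def HasInfiniteImage : Prop :=
  ∃ T φ, A T φ ∧ (∀ m, ∃ m', φ m - m = (4 : ℤ_[2]) • m') ∧ ∃ m, φ m ≠ m

end rep

section image

variable {G ι : Type} [Group G] {M : ι → Type} [∀ i, AddCommGroup (M i)] [∀ i, Module ℤ_[2] (M i)]
  (A : ∀ i, G → (M i →ₗ[ℤ_[2]] M i) → Prop) {N : Type} [AddCommGroup N] [Module ℤ_[2] N]
  (ν : G →* Module.End ℤ_[2] N) (H : Set G) (α : ∀ i, M i ≃ₗ[ℤ_[2]] M i)

/-- For all `n` some element of `H` acts as `α i` on `M i` modulo `2 ^ n`, for all `i`, and acts trivially on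
`N` modulo `2 ^ n`. -/
def IsApproximated : Prop :=
  ∀ n : ℕ, ∃ σ ∈ H, (∀ i, ∃ φ, A i σ φ ∧ ∀ m, ∃ m', φ m - α i m = (2 : ℤ_[2]) ^ n • m') ∧
    ∀ y, ∃ z, ν σ y - y = (2 : ℤ_[2]) ^ n • z

/-- The `H`-equivariant multilinear maps from products of the modules `M i` to `N` are invariant under the
automorphisms `α i`. -/
def FixesTensors : Prop :=
  ∀ (n : ℕ) (c : Fin n → ι) (Φ : MultilinearMap ℤ_[2] (fun s => M (c s)) N),
    (∀ σ ∈ H, ∀ φ : ∀ i, M i →ₗ[ℤ_[2]] M i, (∀ i, A i σ (φ i)) →
      ∀ x, Φ (fun s => φ (c s) (x s)) = ν σ (Φ x)) →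
    ∀ x, Φ (fun s => α (c s) (x s)) = Φ x

/-- All the families of automorphisms `α i` of `(M i, β i)` which are congruent to `1` modulo some power of `2`
are approximated by elements of `H` which act trivially on `N`, and fix the tensors. -/
def HasOpenImage (β : ∀ i, M i → M i → ℤ_[2]) : Prop :=
  ∃ j : ℕ, ∀ α : ∀ i, M i ≃ₗ[ℤ_[2]] M i, (∀ i x y, β i (α i x) (α i y) = β i x y) →
    (∀ i m, ∃ m', α i m - m = (2 : ℤ_[2]) ^ j • m') → IsApproximated A ν H α ∧ FixesTensors A ν H α

end image

section tower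

variable {k k' : Type} [Field k] [Field k'] [Algebra k k']

/-- The extension `E` of `k` in `k'` is reached from `k` by finitely many steps, each of which is a finite
extension or an extension inside the maximal abelian extension. -/
inductive IsTower : IntermediateField k k' → Prop
  | base : IsTower ⊥
  | finite (E E' : IntermediateField k k') : FiniteDimensional k E' → IsTower E → IsTower (E ⊔ E')
  | abelian (E E' : IntermediateField k k') :
      (∀ σ τ : k' ≃ₐ[k] k', σ ∈ E.fixingSubgroup → τ ∈ E.fixingSubgroup →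
        ∀ x ∈ E', σ (τ x) = τ (σ x)) → IsTower E → IsTower E'

end tower

section sel

variable {K F : Type} [Field K] [Field F] [Algebra K F] (B : Type) [CommRing B] [IsDedekindDomain B]
  [Algebra B F] [IsFractionRing B F] (f : K[X])

/-- The restriction of the cochain `c` to the completion of `F` at every maximal ideal of the Dedekind
domain `B` with field of fractions `F` is a coboundary. -/
def IsSelmer (c : (Sep F ≃ₐ[F] Sep F) → Jac 2 f (Sep F)) : Prop :=
  ∀ v : HeightOneSpectrum B, LocTriv 2 f (Comp B F v) (Sep (Comp B F v)) c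

/-- `c` is a continuous cocycle of `Gal(Sep F / F)` with values in the Tate module `T_2 J` which is
locally trivial at all the maximal ideals of the Dedekind domain `B` with field of fractions `F`; its
component with values in `J[2 ^ n]` is `c n`. -/
def IsSelmerCocycle (c : Cochain F (Sep F) f) : Prop :=
  IsTC 2 2 f c ∧ ∀ n, IsSelmer B f (c n)

/-- The constants of `Sep F`. -/
noncomputable def const {k' : Type} [Field k'] [Algebra k'[X] F] (x : k') : Sep F :=
  algebraMap F (Sep F) (algebraMap k'[X] F (C x))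

/-- The automorphism `σ` of `k'` over `k` acts on the module of the classes as `φ`: some automorphism of
`Sep F` over `K` which extends `σ` induces `φ`. -/
def ActsAs {k k' : Type} [Field k] [Field k'] [Algebra k k'] [Algebra k'[X] F] {M : Type}
    [AddCommGroup M] [Module ℤ_[2] M] (κ : Cochain F (Sep F) f → M) (σ : k' ≃ₐ[k] k')
    (φ : M →ₗ[ℤ_[2]] M) : Prop :=
  ∃ T : Sep F ≃ₐ[K] Sep F, (∀ x : k', T (const (F := F) x) = const (F := F) (σ x)) ∧
    IsInduced f (IsSelmerCocycle B f) κ T φ

end sel

/-- The modules `M i` of the classes, with the actions on them, have the property `R`. -/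
def Concl {k k' ι : Type} [Field k] [Field k'] [Algebra k k'] {K F : ι → Type} [∀ i, Field (K i)]
    [∀ i, Field (F i)] [∀ i, Algebra (K i) (F i)] [∀ i, Algebra k'[X] (F i)] (B : ι → Type)
    [∀ i, CommRing (B i)] [∀ i, IsDedekindDomain (B i)] [∀ i, Algebra (B i) (F i)]
    [∀ i, IsFractionRing (B i) (F i)] (f : ∀ i, (K i)[X])
    (R : ∀ (M : ι → Type) [∀ i, AddCommGroup (M i)] [∀ i, Module ℤ_[2] (M i)],
      (∀ i, (k' ≃ₐ[k] k') → (M i →ₗ[ℤ_[2]] M i) → Prop) → Prop) : Prop :=
  ∃ (M : ι → Type) (_ : ∀ i, AddCommGroup (M i)) (_ : ∀ i, Module ℤ_[2] (M i))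
    (_ : ∀ i, Module.Finite ℤ_[2] (M i)) (_ : ∀ i, Module.Free ℤ_[2] (M i))
    (κ : ∀ i, Cochain (F i) (Sep (F i)) (f i) → M i),
    (∀ i, IsClassMap (f i) (IsSelmerCocycle (B i) (f i)) (M i) (κ i)) ∧
    (∀ i, ∀ σ : k' ≃ₐ[k] k', ∃ φ : M i →ₗ[ℤ_[2]] M i, ActsAs (B i) (f i) (κ i) σ φ) ∧
    R M fun i => ActsAs (B i) (f i) (κ i)

/-- (1) The theorem on the joint image. -/
def JointImage : Prop :=
  ∀ (k k' ι : Type) [Field k] [Field k'] [Algebra k k'] [IsSepClosure k k'] [Fintype ι]
    (K F B L V : ι → Type) [∀ i, Field (K i)] [∀ i, Algebra k[X] (K i)] [∀ i, Field (F i)]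
    [∀ i, Algebra k'[X] (F i)] [∀ i, Algebra (K i) (F i)] [∀ i, CommRing (B i)]
    [∀ i, IsDedekindDomain (B i)] [∀ i, Algebra k'[X] (B i)] [∀ i, Algebra (B i) (F i)]
    [∀ i, IsScalarTower k'[X] (B i) (F i)] [∀ i, IsFractionRing (B i) (F i)]
    [∀ i, IsIntegralClosure (B i) k'[X] (F i)] (P : ∀ i, (B i)[X]) (f : ∀ i, (K i)[X])
    [∀ i, IsDedekindDomain (AdjoinRoot (P i))] [∀ i, Field (L i)]
    [∀ i, Algebra (AdjoinRoot (P i)) (L i)] [∀ i, IsFractionRing (AdjoinRoot (P i)) (L i)]
    [∀ i, Algebra (F i) (L i)] [∀ i, AddCommGroup (V i)] [∀ i, Finite (V i)] (cl : ∀ i, (L i)ˣ → V i)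
    (A : ∀ i, (k' ≃ₐ[k] k') →* (AddMonoid.End (V i))ˣ) (N : Type) [AddCommGroup N]
    [Module ℤ_[2] N] [Module.Finite ℤ_[2] N] [Module.Free ℤ_[2] N]
    (ν : (k' ≃ₐ[k] k') →* Module.End ℤ_[2] N),
    (∀ i, IsConstantExtension k k' (K i) (F i)) →
    (∀ i, IsBranchPolynomial k (F := F i) (P i) (f i)) →
    (∀ i, ∀ b : B i, algebraMap (F i) (L i) (algebraMap (B i) (F i) b) =
      algebraMap (AdjoinRoot (P i)) (L i) (AdjoinRoot.of (P i) b)) →
    (∀ i, IsGaloisAction (squares (L i)) (evenGroup (F i) (AdjoinRoot (P i)) (L i))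
      (autUnits (K i) (P i) (L i) (F i)) (cl i) (A i)) →
    AreIndependent A ν →
      Concl (K := K) (F := F) B f fun M _ _ act =>
        ∀ β : ∀ i, M i → M i → ℤ_[2], (∀ i, IsInvariantForm (act i) (β i)) →
          (∀ i, HasInfiniteImage (act i)) →
          ∀ E : IntermediateField k k', IsTower E → HasOpenImage act ν E.fixingSubgroup β

/-- (2) The criterion with transvections. -/
def Transvections : Prop :=
  ∀ (G ι : Type) [Group G] (V : ι → Type) [∀ i, AddCommGroup (V i)] [∀ i, Finite (V i)]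
    (A : ∀ i, G →* (AddMonoid.End (V i))ˣ) (N : Type) [AddCommGroup N] [Module ℤ_[2] N]
    (ν : G →* Module.End ℤ_[2] N), (∀ i, HasTransvections A ν i) → AreIndependent A ν

open Pool.Agent.Q45.GM (SelT clsOf clsOf_surj clsOf_add clsOf_zero rho rho_cls rho_mul rho_one
  evS sqS cs cs_apply rho_congr)

section conv

variable {K F : Type} [Field K] [Field F] [Algebra K F] {B : Type} [CommRing B] [IsDedekindDomain B]
  [Algebra B F] [IsFractionRing B F] {f : K[X]}

theorem toTC {c : Cochain F (Sep F) f} (h : IsTC 2 2 f c) : Pool.Agent.Y160.SQ.IsTC 2 2 f c :=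
  ⟨fun n => ⟨(h.coc n).lc, (h.coc n).mul⟩, h.zero, h.step⟩

theorem ofTC {c : Cochain F (Sep F) f} (h : Pool.Agent.Y160.SQ.IsTC 2 2 f c) : IsTC 2 2 f c :=
  ⟨fun n => ⟨(h.coc n).lc, (h.coc n).mul⟩, h.zero, h.step⟩

/-- The classes of the cocycles. -/
theorem classMap : IsClassMap f (IsSelmerCocycle B f) (SelT (F := F) 2 B f 2) (clsOf B f) where
  surj m := by
    obtain ⟨c, ⟨h1, h2⟩, h3⟩ := clsOf_surj B f m
    exact ⟨c, ⟨ofTC h1, h2⟩, h3⟩
  add c d hc hd := clsOf_add B f (toTC hc.1) hc.2 (toTC hd.1) hd.2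
  zero c hc := by
    refine (clsOf_zero B f (toTC hc.1) hc.2).trans ⟨?_, ?_⟩
    · rintro ⟨R, hR, h⟩
      exact ⟨R, ⟨hR.zero, hR.step⟩, h⟩
    · rintro ⟨R, hR, h⟩
      exact ⟨R, ⟨hR.zero, hR.step⟩, h⟩

end conv


section acts

variable {k k' K F : Type} [Field k] [Field k'] [Algebra k k'] [IsSepClosed k']
  [Algebra.IsSeparable k k'] [Field K] [Algebra k[X] K] [Field F] [Algebra k'[X] F] [Algebra K F]
  {B : Type} [CommRing B] [IsDedekindDomain B] [Algebra k'[X] B] [Algebra B F]
  [IsScalarTower k'[X] B F] [IsFractionRing B F] [IsIntegralClosure B k'[X] F]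

theorem induced_iff (hF' : Pool.Agent.Q45.TW.IsGeom k k' K F) (f : K[X])
    (T : Sep F ≃ₐ[K] Sep F)
    (φ : SelT (F := F) 2 B f 2 →ₗ[ℤ_[2]] SelT (F := F) 2 B f 2) :
    IsInduced f (IsSelmerCocycle B f) (clsOf B f) T φ ↔ φ = rho B hF' f T := by
  constructor
  · intro h
    refine LinearMap.ext fun m => ?_
    obtain ⟨c, ⟨hc, hcs⟩, rfl⟩ := clsOf_surj B f m
    have hcj := Pool.Agent.Q45.GM.lf_T B hF' f T
    have hd : IsTransform f T c (fun n σ => jm 2 f (ak T)
        (c n ((Pool.Agent.Q45.GM.lf B hF' f T).conj σ))) := by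
      intro n σ σ' hσ
      have h5 : (Pool.Agent.Q45.GM.lf B hF' f T).conj σ = σ' := by
        refine AlgEquiv.ext fun x => T.injective ?_
        rw [hσ]
        have h6 := (Pool.Agent.Q45.GM.lf B hF' f T).T_conj σ x
        rwa [hcj] at h6
      have h8 : ∀ ρ : Sep F ≃ₐ[F] Sep F, ρ = σ' →
          jm 2 f (ak T) (c n ρ) = jm 2 f (ak T) (c n σ') := by
        rintro ρ rfl
        rfl
      exact h8 _ h5
    have h7 := (h c _ ⟨ofTC hc, hcs⟩ hd).2
    rw [← h7]
    exact (rho_cls B hF' f T hc hcs hd).2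
  · rintro rfl c d hc hd
    obtain ⟨⟨h4, h5⟩, h6⟩ := rho_cls B hF' f T (toTC hc.1) hc.2 hd
    exact ⟨⟨ofTC h4, h5⟩, h6⟩

theorem acts_iff (hF' : Pool.Agent.Q45.TW.IsGeom k k' K F) (f : K[X])
    (σ : k' ≃ₐ[k] k') (T : Sep F ≃ₐ[K] Sep F) (hT : ∀ x : k', T (cs k' F x) = cs k' F (σ x))
    (φ : SelT (F := F) 2 B f 2 →ₗ[ℤ_[2]] SelT (F := F) 2 B f 2) :
    ActsAs B f (clsOf B f) σ φ ↔ φ = rho B hF' f T := by
  constructor
  · rintro ⟨T', hT', h⟩
    rw [(induced_iff hF' f T' φ).1 h]
    refine LinearMap.ext fun m => rho_congr B hF' f T' T (fun x => ?_) m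
    rw [hT]
    exact hT' x
  · rintro rfl
    exact ⟨T, hT, (induced_iff hF' f T _).2 rfl⟩

end acts

section convert

variable {V : Type} [AddCommGroup V] [Module (ZMod 2) V]

/-- An additive automorphism is linear. -/
noncomputable def toLin (g : (AddMonoid.End V)ˣ) : V ≃ₗ[ZMod 2] V :=
  { AddMonoidHom.toZModLinearMap 2 (g.val : V →+ V) with
    invFun := fun v => (g⁻¹).val v
    left_inv := fun v => by
      show (g⁻¹).val (g.val v) = v
      have h1 := DFunLike.congr_fun (Units.inv_mul g) v
      exact h1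
    right_inv := fun v => by
      show g.val ((g⁻¹).val v) = v
      have h1 := DFunLike.congr_fun (Units.mul_inv g) v
      exact h1 }

theorem toLin_apply (g : (AddMonoid.End V)ˣ) (v : V) : toLin g v = g.val v := rfl

/-- A linear automorphism is additive. -/
def toAdd : (V ≃ₗ[ZMod 2] V) →* (AddMonoid.End V)ˣ where
  toFun e := ⟨e.toLinearMap.toAddMonoidHom, e.symm.toLinearMap.toAddMonoidHom,
    AddMonoidHom.ext fun v => e.apply_symm_apply v, AddMonoidHom.ext fun v => e.symm_apply_apply v⟩
  map_one' := rfl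
  map_mul' _ _ := rfl

theorem toAdd_apply (e : V ≃ₗ[ZMod 2] V) (v : V) : (toAdd e).val v = e v := rfl

theorem toAdd_toLin (g : (AddMonoid.End V)ˣ) : toAdd (toLin g) = g :=
  Units.ext (AddMonoidHom.ext fun v => rfl)

theorem toLin_toAdd (e : V ≃ₗ[ZMod 2] V) : toLin (toAdd e) = e := LinearEquiv.ext fun v => rfl

/-- The group of linear automorphisms. -/
def linGroup (Γ : Subgroup (AddMonoid.End V)ˣ) : Subgroup (V ≃ₗ[ZMod 2] V) := Γ.comap toAdd

theorem mem_linGroup {Γ : Subgroup (AddMonoid.End V)ˣ} {e : V ≃ₗ[ZMod 2] V} :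
    e ∈ linGroup Γ ↔ toAdd e ∈ Γ := Iff.rfl

theorem map_linGroup (Γ : Subgroup (AddMonoid.End V)ˣ) : (linGroup Γ).map toAdd = Γ :=
  Subgroup.map_comap_eq_self_of_surjective (fun g => ⟨toLin g, toAdd_toLin g⟩) Γ

/-- The groups of additive and of linear endomorphisms. -/
def toAddSub (U : Submodule (ZMod 2) (V →ₗ[ZMod 2] V)) : AddSubgroup (V →+ V) where
  carrier := {A | ∃ B ∈ U, ∀ v, A v = B v}
  add_mem' := by
    rintro _ _ ⟨B, hB, h⟩ ⟨B', hB', h'⟩
    exact ⟨B + B', U.add_mem hB hB', fun v => by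
      rw [AddMonoidHom.add_apply, LinearMap.add_apply, h, h']⟩
  zero_mem' := ⟨0, U.zero_mem, fun v => rfl⟩
  neg_mem' := by
    rintro _ ⟨B, hB, h⟩
    exact ⟨-B, U.neg_mem hB, fun v => by
      rw [AddMonoidHom.neg_apply, LinearMap.neg_apply, h]⟩

/-- The groups of additive and of linear endomorphisms. -/
def toLinSub (U : AddSubgroup (V →+ V)) : Submodule (ZMod 2) (V →ₗ[ZMod 2] V) :=
  AddSubgroup.toZModSubmodule 2 (U.comap
    { toFun := fun B : V →ₗ[ZMod 2] V => B.toAddMonoidHom
      map_zero' := rfl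
      map_add' := fun _ _ => rfl })

theorem mem_toLinSub {U : AddSubgroup (V →+ V)} {B : V →ₗ[ZMod 2] V} :
    B ∈ toLinSub U ↔ B.toAddMonoidHom ∈ U := Iff.rfl

/-- The bijection between the additive and the linear endomorphisms. -/
def endEquiv : (V →+ V) ≃ (V →ₗ[ZMod 2] V) where
  toFun A := AddMonoidHom.toZModLinearMap 2 A
  invFun B := B.toAddMonoidHom
  left_inv A := AddMonoidHom.ext fun v => rfl
  right_inv B := LinearMap.ext fun v => rfl

theorem card_toLinSub (U : AddSubgroup (V →+ V)) : Nat.card (toLinSub U) = Nat.card U := by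
  refine Nat.card_congr (Equiv.subtypeEquiv endEquiv.symm fun B => ?_)
  exact mem_toLinSub

theorem card_toAddSub (U : Submodule (ZMod 2) (V →ₗ[ZMod 2] V)) :
    Nat.card (toAddSub U) = Nat.card U := by
  refine Nat.card_congr (Equiv.subtypeEquiv endEquiv fun A => ?_)
  constructor
  · rintro ⟨B, hB, h⟩
    have h1 : endEquiv A = B := LinearMap.ext fun v => h v
    rw [h1]
    exact hB
  · intro h
    exact ⟨endEquiv A, h, fun v => rfl⟩

theorem card_skew (β : V →ₗ[ZMod 2] V →ₗ[ZMod 2] ZMod 2) :
    Nat.card {A : V →+ V // ∀ v, β (A v) v = 0} = Nat.card (Pool.Agent.Q45.OI.skewEnd β) :=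
  Nat.card_congr (Equiv.subtypeEquiv endEquiv fun A => Iff.rfl)

theorem scalar_iff (A : V →+ V) (B : V →ₗ[ZMod 2] V) (h : ∀ v, A v = B v) :
    IsScalar A ↔ B = 0 ∨ B = 1 := by
  constructor
  · rintro (h1 | h1)
    · left
      exact LinearMap.ext fun v => by rw [← h, h1]; rfl
    · right
      exact LinearMap.ext fun v => by rw [← h, h1]; rfl
  · rintro (rfl | rfl)
    · left
      exact fun v => h v
    · right
      exact fun v => h v

variable [Module.Finite (ZMod 2) V] {Γ : Subgroup (AddMonoid.End V)ˣ}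

theorem finrank_le (U W : Submodule (ZMod 2) (V →ₗ[ZMod 2] V)) :
    Nat.card U ≤ 2 * Nat.card W ↔
      Module.finrank (ZMod 2) U ≤ Module.finrank (ZMod 2) W + 1 := by
  rw [Module.natCard_eq_pow_finrank (K := ZMod 2) (V := U),
    Module.natCard_eq_pow_finrank (K := ZMod 2) (V := W), Nat.card_zmod, ← pow_succ']
  exact Nat.pow_le_pow_iff_right (by norm_num)

theorem large_lin (h : IsLarge Γ) : Pool.Agent.Q45.OI.IsLarge (linGroup Γ) where
  irr U hU := by
    rcases h.irreducible U.toAddSubgroup (fun g hg v hv => hU (toLin g)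
      (by rw [mem_linGroup, toAdd_toLin]; exact hg) v hv) with h1 | h1
    · left
      ext v
      exact SetLike.ext_iff.1 h1 v
    · right
      ext v
      exact SetLike.ext_iff.1 h1 v
  scal Γ' hΓ' hi A hA := by
    have h1 := h.scalar (Γ'.map toAdd) (by
      rintro _ ⟨e, he, rfl⟩
      exact hΓ' he) (by
      have h2 := Pool.Agent.Q45.OI.relIndex_map_dvd (toAdd (V := V)) Γ' (linGroup Γ) hΓ'
      rw [map_linGroup] at h2
      exact h2.trans hi) A.toAddMonoidHom (by
      rintro _ ⟨e, he, rfl⟩ v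
      exact hA e he v)
    exact (scalar_iff A.toAddMonoidHom A fun v => rfl).1 h1
  skew β halt hnd hinv U hU hst := by
    rcases h.skew (fun v w => β v w) ⟨fun u v w => by rw [map_add]; rfl, fun u v w => by rw [map_add],
        halt, hnd, fun g hg v w => hinv (toLin g) (by rw [mem_linGroup, toAdd_toLin]; exact hg) v w⟩
        (toAddSub U) (by
          rintro A ⟨B, hB, hAB⟩ v
          rw [hAB]
          exact hU hB v) (by
          rintro g hg A ⟨B, hB, hAB⟩ A' hA'
          refine ⟨AddMonoidHom.toZModLinearMap 2 A', ?_, fun v => rfl⟩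
          refine hst (toLin g) (by rw [mem_linGroup, toAdd_toLin]; exact hg) B hB _ fun v => ?_
          have h2 := hA' v
          rw [hAB] at h2
          exact h2) with h1 | h1
    · left
      intro B hB
      exact (scalar_iff B.toAddMonoidHom B fun v => rfl).1 (h1 _ ⟨B, hB, fun v => rfl⟩)
    · right
      rw [card_skew, card_toAddSub] at h1
      exact (finrank_le _ _).1 h1

theorem large_add (h : Pool.Agent.Q45.OI.IsLarge (linGroup Γ)) : IsLarge Γ where
  irreducible U hU := by
    rcases h.irr (AddSubgroup.toZModSubmodule 2 U) (fun e he v hv => hU (toAdd e) he v hv)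
      with h1 | h1
    · left
      ext v
      exact SetLike.ext_iff.1 h1 v
    · right
      ext v
      exact SetLike.ext_iff.1 h1 v
  scalar Γ' hΓ' hi A hA := by
    have h1 := h.scal (linGroup Γ') (fun e he => hΓ' he) (by
      have h2 : (linGroup Γ').relIndex (linGroup Γ) = Γ'.relIndex Γ := by
        have h3 := Subgroup.relIndex_comap Γ' (toAdd (V := V)) (linGroup Γ)
        rw [map_linGroup] at h3
        exact h3
      rw [h2]
      exact hi) (AddMonoidHom.toZModLinearMap 2 A) (fun e he v => hA (toAdd e) he v)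
    exact (scalar_iff A _ fun v => rfl).2 h1
  skew := by
    intro β hβ U hU hst
    have h01 : ∀ c : ZMod 2, c = 0 ∨ c = 1 := by decide
    have hz1 : ∀ w, β 0 w = 0 := by
      intro w
      have := hβ.add 0 0 w
      rw [add_zero] at this
      exact left_eq_add.1 this
    have hz2 : ∀ w, β w 0 = 0 := by
      intro w
      have := hβ.add' w 0 0
      rw [add_zero] at this
      exact left_eq_add.1 this
    let β' : V →ₗ[ZMod 2] V →ₗ[ZMod 2] ZMod 2 := LinearMap.mk₂ (ZMod 2) β hβ.add
      (fun c v w => by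
        rcases h01 c with rfl | rfl
        · rw [zero_smul, zero_smul, hz1]
        · rw [one_smul, one_smul]) hβ.add'
      (fun c v w => by
        rcases h01 c with rfl | rfl
        · rw [zero_smul, zero_smul, hz2]
        · rw [one_smul, one_smul])
    have hβ' : ∀ v w, β' v w = β v w := fun v w => rfl
    rcases h.skew β' hβ.alt hβ.nondegenerate (fun e he v w => hβ.inv (toAdd e) he v w)
        (toLinSub U) (fun B hB v => hU _ hB v) (fun e he B hB B' hB' =>
          hst (toAdd e) he _ hB _ hB') with h1 | h1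
    · left
      intro A hA
      exact (scalar_iff A (AddMonoidHom.toZModLinearMap 2 A) fun v => rfl).2 (h1 _ hA)
    · right
      have h2 := (finrank_le _ _).2 h1
      rw [card_toLinSub, ← card_skew] at h2
      exact h2

end convert

/-- The form as a bilinear map. -/
theorem exists_form {G M : Type} [Group G] [AddCommGroup M] [Module ℤ_[2] M]
    {A : G → (M →ₗ[ℤ_[2]] M) → Prop} {β : M → M → ℤ_[2]} (h : IsInvariantForm A β) :
    ∃ β' : M →ₗ[ℤ_[2]] M →ₗ[ℤ_[2]] ℤ_[2], ∀ x y, β' x y = β x y :=
  ⟨LinearMap.mk₂ ℤ_[2] β h.add h.smul (fun x y z => by rw [h.symm, h.add, h.symm y, h.symm z])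
    (fun c x y => by rw [h.symm, h.smul, h.symm y]; rfl), fun x y => rfl⟩

theorem lems : Pool.Agent.Q45.OI.Lems :=
  ⟨Pool.Agent.Q45.OI.KLA.lie1, Pool.Agent.Q45.OI.KLA.lie2, Pool.Agent.Q45.OI.KLA.lie3,
    Pool.Agent.Q45.OI.KLA.lie4, Pool.Agent.Q45.OI.KLA.lie5, Pool.Agent.Q45.OI.JORTH.main,
    Pool.Agent.Q45.OI.JLEMX.main, Pool.Agent.Q45.OI.KLC.red⟩

/-- The towers give chains of subgroups. -/
theorem tower_chain {k k' : Type} [Field k] [Field k'] [Algebra k k'] [IsSepClosed k']
    [Algebra.IsSeparable k k'] {E : IntermediateField k k'} (h : IsTower E) :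
    Pool.Agent.Q45.OI.Chain (E.fixingSubgroup) := by
  induction h with
  | base =>
    rw [IntermediateField.fixingSubgroup_bot]
    exact Pool.Agent.Q45.OI.Chain.top
  | finite E E' hfin _ ih =>
    haveI : FiniteDimensional k E' := hfin
    obtain ⟨N, hN, hpow⟩ := Pool.Agent.Q45.OI.exists_exp_gal E'
    refine Pool.Agent.Q45.OI.Chain.pow N hN (fun σ hσ => ?_) ih
    rw [IntermediateField.fixingSubgroup_sup]
    exact ⟨pow_mem hσ N, hpow σ⟩
  | abelian E E' hab _ ih =>
    refine Pool.Agent.Q45.OI.Chain.comm (fun σ hσ τ hτ => ?_) ih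
    rw [IntermediateField.mem_fixingSubgroup_iff]
    intro x hx
    have h1 := hab σ⁻¹ τ⁻¹ (inv_mem hσ) (inv_mem hτ) x hx
    have h2 : (σ * τ * σ⁻¹ * τ⁻¹) x = σ (τ (σ⁻¹ (τ⁻¹ x))) := rfl
    rw [h2, h1]
    have h3 : ∀ (ρ : k' ≃ₐ[k] k') (y : k'), ρ (ρ⁻¹ y) = y := fun ρ y => by
      rw [← AlgEquiv.mul_apply, mul_inv_cancel]
      rfl
    rw [h3, h3]

theorem jointImage : JointImage := by
  intro k k' ι _ _ _ hk' _ K F B L V _ _ _ _ _ _ _ _ _ _ _ _ P f _ _ _ _ _ _ _ cl A N _ _ _ _ ν
    hF hP hL hV hA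
  haveI : IsSepClosed k' := hk'.sep_closed
  haveI : Algebra.IsSeparable k k' := hk'.separable
  have hF' : ∀ i, Pool.Agent.Q45.TW.IsGeom k k' (K i) (F i) := fun i =>
    ⟨(hF i).injective, (hF i).comp, (hF i).generated⟩
  have h2V : ∀ i, ∀ v : V i, 2 • v = 0 := by
    intro i v
    obtain ⟨z, hz, rfl⟩ := (hV i).surj v
    have h1 : z * z ∈ squares (L i) := ⟨z, pow_two z⟩
    rw [two_nsmul, ← (hV i).add z hz z hz, (hV i).zero _ (mul_mem hz hz)]
    exact h1
  letI im : ∀ i, Module (ZMod 2) (V i) := fun i => AddCommGroup.zmodModule (h2V i)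
  haveI : ∀ i, Module.Finite (ZMod 2) (V i) := fun i => Module.Finite.of_finite
  -- the action as a linear action
  have hlin : ∀ i, ∃ a : (k' ≃ₐ[k] k') →* (V i ≃ₗ[ZMod 2] V i), ∀ σ v, a σ v = (A i σ).val v :=
    fun i => ⟨{ toFun := fun σ => toLin (A i σ)
                map_one' := LinearEquiv.ext fun v => by
                  rw [map_one]
                  rfl
                map_mul' := fun σ τ => LinearEquiv.ext fun v => by
                  rw [map_mul]
                  rfl }, fun σ v => rfl⟩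
  choose a ha using hlin
  -- one double cover
  have hone : ∀ i, Module.Finite ℤ_[2] (SelT (F := F i) 2 (B i) (f i) 2) ∧
      Module.Free ℤ_[2] (SelT (F := F i) 2 (B i) (f i) 2) ∧
      (∀ τ : k' ≃ₐ[k] k', ∃ T : Sep (F i) ≃ₐ[K i] Sep (F i),
        ∀ x, T (cs k' (F i) x) = cs k' (F i) (τ x)) ∧
      ∃ κ : SelT (F := F i) 2 (B i) (f i) 2 →+ V i,
        (∀ m, κ m = 0 ↔ ∃ m', m = (2 : ℤ_[2]) • m') ∧
        ∀ (T : Sep (F i) ≃ₐ[K i] Sep (F i)) (τ : k' ≃ₐ[k] k'),
          (∀ x, T (cs k' (F i) x) = cs k' (F i) (τ x)) →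
            ∀ m, κ (rho (B i) (hF' i) (f i) T m) = a i τ (κ m) := by
    intro i
    refine Pool.Agent.Q45.OI.gen_dat (B i) (hF' i) (hP i).two (hP i).map_eq (hP i).monic
      (hP i).odd (hP i).separable (hL i) (Ev := evenGroup (F i) (AdjoinRoot (P i)) (L i))
      (fun z => Iff.rfl) (hV i).add (hV i).zero (hV i).surj (fun τ v => a i τ v) fun τ => ?_
    obtain ⟨_, ⟨e, he1, he2, rfl⟩, he3⟩ := (hV i).act τ
    exact ⟨e, he1, he2, fun z hz => by rw [ha]; exact he3 z hz⟩
  haveI i1 : ∀ i, Module.Finite ℤ_[2] (SelT (F := F i) 2 (B i) (f i) 2) :=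
    fun i => (hone i).1
  haveI i2 : ∀ i, Module.Free ℤ_[2] (SelT (F := F i) 2 (B i) (f i) 2) :=
    fun i => (hone i).2.1
  choose ext hext using fun i => (hone i).2.2.1
  choose κ hκ1 hκ2 using fun i => (hone i).2.2.2
  have hind := fun i (σ : k' ≃ₐ[k] k') => acts_iff (B := B i) (hF' i) (f i) σ (ext i σ) (hext i σ)
  let r : ∀ i, (k' ≃ₐ[k] k') →*
      (Module.End ℤ_[2] (SelT (F := F i) 2 (B i) (f i) 2))ˣ := fun i =>
    { toFun := fun σ => Pool.Agent.Q45.OI.rhoU (B i) (hF' i) (f i) (ext i σ)
      map_one' := Units.ext (LinearMap.ext fun m => by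
        show rho (B i) (hF' i) (f i) (ext i 1) m = m
        rw [rho_congr (B i) (hF' i) (f i) (ext i 1) 1 (fun x => by rw [hext]; rfl) m]
        exact rho_one (B i) (hF' i) (f i) m)
      map_mul' := fun σ τ => Units.ext (LinearMap.ext fun m => by
        show rho (B i) (hF' i) (f i) (ext i (σ * τ)) m =
          rho (B i) (hF' i) (f i) (ext i σ) (rho (B i) (hF' i) (f i) (ext i τ) m)
        rw [← rho_mul]
        refine rho_congr (B i) (hF' i) (f i) (ext i (σ * τ)) (ext i σ * ext i τ) (fun x => ?_) m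
        have h1 : (ext i σ * ext i τ) (cs k' (F i) x) = ext i σ (ext i τ (cs k' (F i) x)) := rfl
        rw [h1, hext, hext, hext]
        rfl) }
  refine ⟨fun i => SelT (F := F i) 2 (B i) (f i) 2, inferInstance, inferInstance, i1, i2,
    fun i => clsOf (B i) (f i), fun i => classMap,
    fun i σ => ⟨rho (B i) (hF' i) (f i) (ext i σ), (hind i σ _).2 rfl⟩, ?_⟩
  intro β hβ hinf E hE
  choose β' hβ' using fun i => exists_form (hβ i)
  have hrange : ∀ i, (a i).range = linGroup (A i).range := by
    intro i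
    ext g
    rw [mem_linGroup]
    constructor
    · rintro ⟨σ, rfl⟩
      refine ⟨σ, Units.ext (AddMonoidHom.ext fun v => ?_)⟩
      exact (ha i σ v).symm
    · rintro ⟨τ, hτ⟩
      refine ⟨τ, LinearEquiv.ext fun v => ?_⟩
      have h1 := congrArg (fun u : (AddMonoid.End (V i))ˣ => u.val v) hτ
      exact (ha i τ v).trans h1
  have hfam : Pool.Agent.Q45.OI.FamN r ν.toHomUnits κ a β' := by
    refine ⟨hκ1, fun i σ m => hκ2 i (ext i σ) σ (hext i σ) m, fun i => ?_, hA.card, fun i => ?_,
      fun i => ?_, fun i x y => ?_, fun i σ x y => ?_, fun i => ?_⟩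
    · rw [hrange]
      exact large_lin (hA.large i)
    · obtain ⟨σ, h1, h2, h3, h4⟩ := hA.order i
      refine ⟨σ, LinearEquiv.ext fun v => ?_, fun h4 => h2 ?_, fun j hj => LinearEquiv.ext fun v => ?_,
        h4⟩
      · have h4 : (a i σ ^ 3) v = a i σ (a i σ (a i σ v)) := rfl
        rw [h4, ha, ha, ha]
        have h5 := congrArg (fun u : (AddMonoid.End (V i))ˣ => u.val v) h1
        exact h5
      · refine Units.ext (AddMonoidHom.ext fun v => ?_)
        have h5 := LinearEquiv.congr_fun h4 v
        exact (ha i σ v).symm.trans h5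
      · have h5 := congrArg (fun u : (AddMonoid.End (V j))ˣ => u.val v) (h3 j hj)
        exact (ha j σ v).trans h5
    · intro h0
      obtain ⟨x, y, hxy⟩ := (hβ i).ne
      apply hxy
      rw [← hβ', h0]
      rfl
    · rw [hβ', hβ', (hβ i).symm]
    · rw [hβ', hβ']
      exact (hβ i).inv σ _ ((hind i σ _).2 rfl) x y
    · obtain ⟨σ, φ, hφ, h4, m, hm⟩ := hinf i
      rw [(hind i σ φ).1 hφ] at h4 hm
      refine ⟨σ, (Pool.Agent.Q45.OI.cg_iff _ _ _).2 fun m => ?_, fun h5 => hm ?_⟩
      · obtain ⟨m', hm'⟩ := h4 m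
        exact ⟨m', hm'.trans (congrArg (fun c : ℤ_[2] => c • m') (by norm_num : (4 : ℤ_[2]) = 2 ^ 2))⟩
      · have h6 := congrArg (fun u : (Module.End ℤ_[2] (SelT (F := F i) 2 (B i) (f i) 2))ˣ =>
          u.val m) h5
        exact h6
  obtain ⟨j, hj⟩ := hfam.joint lems (tower_chain hE)
  refine ⟨j, fun α hα hα1 => ?_⟩
  have happ := hj α (fun i x y => by rw [hβ', hβ']; exact hα i x y) hα1
  constructor
  · intro n
    obtain ⟨σ, hσ, h5, h6⟩ := happ n
    exact ⟨σ, hσ, fun i => ⟨rho (B i) (hF' i) (f i) (ext i σ), (hind i σ _).2 rfl, h5 i⟩, h6⟩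
  · intro n c Φ hΦ x
    refine Pool.Agent.Q45.OI.fix_of_approx c Φ (fun i => α i) x fun m => ?_
    obtain ⟨σ, hσ, h5, h6⟩ := happ m
    exact ⟨fun i => rho (B i) (hF' i) (f i) (ext i σ), ν σ, h5, h6,
      hΦ σ hσ (fun i => rho (B i) (hF' i) (f i) (ext i σ)) (fun i => (hind i σ _).2 rfl) x⟩

theorem transvections : Transvections := by
  intro G ι _ V _ _ A N _ _ ν h
  have hss : ∀ c : ZMod 2, c + c = 0 := by decide
  have h01 : ∀ c : ZMod 2, c = 0 ∨ c = 1 := by decide
  have key : ∀ i, IsLarge (A i).range ∧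
      ∃ σ, A i σ ^ 3 = 1 ∧ A i σ ≠ 1 ∧ IsTrivialOff A ν i σ := by
    intro i
    obtain ⟨h6, q, hq, ht⟩ := h i
    have h2V : ∀ v : V i, 2 • v = 0 := by
      intro v
      rw [two_nsmul]
      refine hq.nondegenerate _ fun w => ?_
      rw [hq.add, hss]
    letI : Module (ZMod 2) (V i) := AddCommGroup.zmodModule h2V
    haveI : Module.Finite (ZMod 2) (V i) := Module.Finite.of_finite
    have hsym : ∀ x y, polarForm q x y = polarForm q y x := by
      intro x y
      unfold polarForm
      rw [add_comm x y]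
      ring
    have hpz : ∀ y, polarForm q 0 y = 0 := by
      intro y
      have h1 := hq.add 0 0 y
      rw [add_zero] at h1
      exact left_eq_add.1 h1
    have hq0 : q 0 = 0 := by
      have h1 := hpz 0
      unfold polarForm at h1
      rw [add_zero, hss, zero_add] at h1
      exact h1
    let Q : QuadraticForm (ZMod 2) (V i) := QuadraticMap.ofPolar q
      (fun a x => by
        rcases h01 a with rfl | rfl
        · rw [zero_smul, hq0]; simp
        · rw [one_smul]; simp)
      (fun x x' y => by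
        have h1 := hq.add x x' y
        unfold polarForm at h1
        unfold QuadraticMap.polar
        have e1 := hss (q (x + x'))
        have e2 := hss (q y)
        have e3 := hss (q (x + y))
        have e4 := hss (q (x' + y))
        have e5 := hss (q x)
        have e6 := hss (q x')
        linear_combination h1 - e1 + e5 + e6 + e2)
      (fun a x y => by
        rcases h01 a with rfl | rfl
        · rw [zero_smul, zero_smul]
          unfold QuadraticMap.polar
          rw [zero_add, hq0]
          ring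
        · rw [one_smul, one_smul])
    have hQ : ∀ v, Q v = q v := fun v => rfl
    have hpol : ∀ x y, QuadraticMap.polar Q x y = polarForm q x y := by
      intro x y
      unfold QuadraticMap.polar polarForm
      rw [hQ, hQ, hQ]
      have e1 := hss (q x)
      have e2 := hss (q y)
      linear_combination -e1 - e2
    have hfr : 6 ≤ Module.finrank (ZMod 2) (V i) := by
      rw [Module.natCard_eq_pow_finrank (K := ZMod 2) (V := V i), Nat.card_zmod] at h6
      exact (Nat.pow_le_pow_iff_right (by norm_num : 1 < 2)).1 (by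
        show 2 ^ 6 ≤ 2 ^ _
        exact h6)
    have hnd : ∀ v, (∀ w, QuadraticMap.polar Q v w = 0) → v = 0 :=
      fun v hv => hq.nondegenerate v fun w => by rw [← hpol]; exact hv w
    have htr : ∀ v, q v = 1 → ∃ σ, (∀ x, toLin (A i σ) x = x + QuadraticMap.polar Q x v • v) ∧
        IsTrivialOff A ν i σ := by
      intro v hv
      obtain ⟨σ, h1, h2⟩ := ht v hv
      refine ⟨σ, fun x => ?_, h2⟩
      rw [toLin_apply, h1, hpol]
      rcases h01 (polarForm q x v) with h1 | h1
      · rw [if_pos h1, h1, zero_smul, add_zero]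
      · rw [if_neg (by rw [h1]; decide), h1, one_smul]
    constructor
    · refine large_add (Pool.Agent.Q45.OI.JLARGE.main (V i) Q hfr hnd (linGroup (A i).range) ?_)
      intro v hv
      obtain ⟨σ, h1, h2⟩ := htr v hv
      exact ⟨toLin (A i σ), by rw [mem_linGroup, toAdd_toLin]; exact ⟨σ, rfl⟩, h1⟩
    · obtain ⟨u, v, hu, hv, huv⟩ := Pool.Agent.Q45.OI.exists_three Q hfr hnd
      obtain ⟨σ, hσ1, hσ2⟩ := htr u hu
      obtain ⟨τ, hτ1, hτ2⟩ := htr v hv
      obtain ⟨h1, h2⟩ := huv _ _ hσ1 hτ1
      refine ⟨σ * τ, ?_, ?_, fun j hj => by rw [map_mul, hσ2.1 j hj, hτ2.1 j hj, one_mul],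
        fun y => ?_⟩
      · refine Units.ext (AddMonoidHom.ext fun w => ?_)
        have h3 := LinearEquiv.congr_fun h1 w
        rw [map_mul]
        exact h3
      · intro h3
        apply h2
        refine LinearEquiv.ext fun w => ?_
        have h4 := congrArg (fun u : (AddMonoid.End (V i))ˣ => u.val w) h3
        simp only [map_mul] at h4
        exact h4
      · obtain ⟨z, hz⟩ := hτ2.2 y
        obtain ⟨w, hw⟩ := hσ2.2 (ν τ y)
        refine ⟨w + z, ?_⟩
        rw [smul_add, ← hw, ← hz, map_mul, Module.End.mul_apply]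
        abel
  exact ⟨fun i => le_trans (by norm_num) (h i).1, fun i => (key i).1, fun i => (key i).2⟩

/-- **Joint open image for double covers over arbitrary base curves, independently of an arbitrary Galois
module.** -/
theorem result : JointImage ∧ Transvections := ⟨jointImage, transvections⟩

end Pool.Agent.Results.MP_0fca13_ag.DoubleCoversTimesAnyVariety
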