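import Pool.Agent.Q43.FS.Dn
import Pool.Agent.Q43.FS.Ld
import Pool.Agent.Y447.CL.Small

/-!
# The structure of all Tate classes on the powers of an abelian variety with one Frobenius torus of large rank

Let `A` be an abelian variety over a finitely generated subfield of the complex numbers. Suppose that
at ONE place of good reduction, with residue field of `q` elements, the characteristic polynomial of
the Frobenius element is the product of the minimal polynomials of Weil numbers `π i` in CM fields
`K i`. Nothing is assumed about the Galois groups of these fields, about the slopes, or about the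
signatures of the endomorphisms; factors of type IV in the classification of Albert are allowed.

Let `D` be the defect (`defect`): the rank of the group of the multiplicative relations between the
Frobenius eigenvalues, up to roots of unity and modulo the trivial relations
`φ (π) conj (φ (π)) = q`. In other words, the Frobenius torus (the connected component of the Zariski
closure of the group generated by the Frobenius element) has rank `dim A + 1 - D`. Let `D_i`
(`defectAt`) be the rank of the restrictions of these relations to the conjugates of `π i`. The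
assumption is that `8 D_i < [K i : ℚ]` for all `i`. If the Frobenius polynomial is irreducible, this
says that the Frobenius torus has rank greater than `3 g / 4 + 1`, `g = dim A`. For `D = 0` (a Frobenius
torus of the largest possible rank) all Tate classes on all powers of `A` are generated by divisor
classes (Zarhin, Tankeev). Here relations are allowed, so there may be exotic classes.

**Theorem.** There is a commutative algebra `F` contained in the centre of `End(A) ⊗ ℚ` with the
following properties.

1. Let `L` be the field generated by the eigenvalues of the elements of `F` (all conjugates of `F`). Its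
   Galois group over `ℚ` embeds into `GL_M(ℚ)` for some `M ≤ D`, and complex conjugation is mapped to
   `-1`. So `L` is `ℚ` or a CM field, its degree is bounded in terms of `D` alone, and for `D = 1` it is
   `ℚ` or imaginary quadratic.
2. If `M = 0` (for instance if `D = 1` and the centre of `End(A) ⊗ ℚ` contains no imaginary quadratic
   field), then on ALL powers `A ^ n` and in ALL codimensions the Tate classes are linear combinations
   of products of Tate classes of codimension one. Those are combinations of divisor classes
   (Faltings), so the Tate conjecture holds for all powers of `A`.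
3. The same holds in codimension `m` on all powers if the eigenvalues which are not real of the
   central endomorphisms of `A` have multiplicities greater than `2 m` in `H_1(A, ℚ)`
   (`LargeMultiplicities`). This is no condition if `A` has no factor of type IV: then the Tate
   conjecture holds for all powers of `A`.
4. In general ALL Tate classes in `H^1(A, ℚ_ℓ)^{⊗ 2 m}(m)`, for all `m` (they contain the Tate classes on
   all powers of `A`) are linear combinations of products of divisor classes and of one Weil tensor
   `w (P_1 v_1, …, P_{2 m'} v_{2 m'})`, `P_k` endomorphisms of `A`. A Weil tensor (`IsWeilTensor`) is a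
   Hodge class in `H^1(A, ℚ)^{⊗ 2 m'}` invariant under the commutators of the `F`-linear automorphisms of
   `H_1(A, ℚ)`. If `F` is a field, these commutators generate `SL_F(H_1(A, ℚ))`, and its invariants are
   the products of the elements of `⋀_F^d H^1(A, ℚ)`, `d = dim_F H_1(A, ℚ)`: the classes considered by
   Weil. So the Tate conjecture for all powers of `A` is reduced to the Weil classes of `F`.

The assumption `8 D_i < [K i : ℚ]` cannot be replaced by `8 D_i ≤ [K i : ℚ]`: for Mumford's fourfolds
(`g = 4`, `End (A) = ℤ`) almost all Frobenius tori have defect one, and there are exotic classes on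
`A × A`.

The proof: the relations span a space of functions of dimension `D` on the set of the embeddings of the
fields `K i` which is invariant under the Galois group, so the value of such a function at an
embedding of `K i` is at most `D_i / [K i : ℚ]` times its norm of order one on the embeddings of `K i`
(uncertainty principle); a relation of length four gives a function with integral values and norm at
most `8`. So all relations of length four are trivial, for all powers of the Frobenius element. By the
theorem of Deligne a power of the Frobenius element multiplies the Hodge tensors by powers of one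
number (one power is enough for all Hodge tensors: their weights generate a lattice of finite rank),
so it gives, over the complex numbers, an element of the group of all similitudes of the Hodge
tensors. This group is reductive, and an element without short relations determines its invariants:
they are generated in degree two up to the determinants of blocks of eigenvectors. The excesses of the
words which occur in Hodge tensors span a space `V` of dimension at most `D`, stable under the
automorphisms of `ℂ` (Hodge endomorphisms separate the embeddings up to the relation of having the same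
excesses); the functions constant on the classes of this relation descend to the algebra `F`, on `V`
acts the Galois group of `L`, faithfully. Finally all Tate classes are combinations of Hodge classes.

In the Lean statement `H` is `H_1(A, ℚ)`, `T` the tangent space at the origin, `per : H → T` the
inclusion, `ω₀` a Riemann form; `ρ`, `χ`, `ω` are the Galois representation on the Tate module
`ℚ_ℓ ⊗ H`, the cyclotomic character and the Weil pairing (`IsAbelianVariety`; this contains the
theorems of Faltings, the theorem of Deligne and the theorem on centres of Vasiu, Ullmo and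
Yafaev). `GeneratedInCodimension ρ χ m` says that on all powers `A ^ n` all Tate classes of codimension
`m` are linear combinations of products of Tate classes of codimension one.
-/

set_option autoImplicit false

namespace Pool.Agent.Results.MP_0fca13_ag.FrobeniusStructure

open NumberField Module TensorProduct Pool.Agent.H204R3.GP Pool.Agent.W516.MTD
  Pool.Agent.W516.FT Pool.Agent.TH776.FM

section

variable {H T : Type} [AddCommGroup H] [Module ℚ H] [AddCommGroup T] [Module ℂ T]

/-- Weil tensors: Hodge classes in a tensor power of the first cohomology group which are invariant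
under the commutators of the `F`-linear automorphisms of the rational homology. -/
def IsWeilTensor (per : H →+ T) (F : Subalgebra ℚ (Module.End ℚ H)) {m : ℕ}
    (w : MultilinearMap ℚ (fun _ : Fin m × Fin 2 => H) ℚ) : Prop :=
  IsHodgeTensor per w ∧ ∀ g h : H ≃ₗ[ℚ] H,
    (∀ z ∈ F, ∀ v, g (z v) = z (g v)) → (∀ z ∈ F, ∀ v, h (z v) = z (h v)) →
    ∀ v, w (fun k => g (h (g.symm (h.symm (v k))))) = w v

/-- The products of Hodge classes of degree two and of one Weil tensor, composed with
endomorphisms of the abelian variety, in `2 m` variables. -/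
def divisorWeilProducts (per : H →+ T) (F : Subalgebra ℚ (Module.End ℚ H)) (m : ℕ) :
    Set (MultilinearMap ℚ (fun _ : Fin m × Fin 2 => H) ℚ) :=
  {ψ | ∃ (s m' : ℕ) (e : (Fin s × Fin 2) ⊕ (Fin m' × Fin 2) ≃ Fin m × Fin 2)
    (β : Fin s → (H →ₗ[ℚ] H →ₗ[ℚ] ℚ))
    (w : MultilinearMap ℚ (fun _ : Fin m' × Fin 2 => H) ℚ)
    (P : Fin m' × Fin 2 → (H →ₗ[ℚ] H)),
    (∀ j, IsHodgeBilinear per (β j)) ∧ (∀ k, IsHodgeEnd per (P k)) ∧ IsWeilTensor per F w ∧
    ∀ v, ψ v = (∏ j, β j (v (e (Sum.inl (j, 0)))) (v (e (Sum.inl (j, 1))))) *
      w (fun k => P k (v (e (Sum.inr k))))}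

/-- The linear combinations, with coefficients in `k`, of the rational classes in `S`. -/
def combinations (k : Type) [Field k] [CharZero k] {κ : Type}
    (S : Set (MultilinearMap ℚ (fun _ : κ => H) ℚ)) :
    Submodule k (MultilinearMap k (fun _ : κ => k ⊗[ℚ] H) k) :=
  Submodule.span k {φ | ∃ ψ ∈ S, ∀ v : κ → H,
    φ (fun l => (1 : k) ⊗ₜ[ℚ] v l) = ((ψ v : ℚ) : k)}

/-- `P` is a central endomorphism of the abelian variety. -/
def IsCentral (per : H →+ T) (P : H →ₗ[ℚ] H) : Prop :=
  IsHodgeEnd per P ∧ ∀ Q : H →ₗ[ℚ] H, IsHodgeEnd per Q → P ∘ₗ Q = Q ∘ₗ P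

/-- The eigenvalues which are not real of the central endomorphisms have multiplicities greater than
`r`. -/
def LargeMultiplicities [FiniteDimensional ℚ H] (per : H →+ T) (r : ℕ) : Prop :=
  ∀ P : H →ₗ[ℚ] H, IsCentral per P →
    ∀ z : ℂ, (P.charpoly.map (algebraMap ℚ ℂ)).IsRoot z → z.im ≠ 0 →
      r < (P.charpoly.map (algebraMap ℚ ℂ)).rootMultiplicity z

end

/-- **The structure of all Tate classes on the powers of an abelian variety with one Frobenius torus of
large rank.** -/
theorem result {I : Type} [Fintype I] (K : I → Type) [∀ i, Field (K i)] [∀ i, NumberField (K i)]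
    [∀ i, IsCMField (K i)] (q : ℕ) (hq : 0 < q) (π : ∀ i, K i)
    (hweil : ∀ i, ∀ φ : K i →+* ℂ, ‖φ (π i)‖ ^ 2 = (q : ℝ)) (ℓ : ℕ) [Fact ℓ.Prime]
    {H T Γ : Type} [AddCommGroup H] [Module ℚ H] [FiniteDimensional ℚ H]
    [AddCommGroup T] [Module ℂ T] [Group Γ] (per : H →+ T) (ω₀ : H →ₗ[ℚ] H →ₗ[ℚ] ℚ)
    (ρ : Representation ℚ_[ℓ] Γ (ℚ_[ℓ] ⊗[ℚ] H)) (χ : Γ →* ℚ_[ℓ])
    (ω : ℚ_[ℓ] ⊗[ℚ] H →ₗ[ℚ_[ℓ]] ℚ_[ℓ] ⊗[ℚ] H →ₗ[ℚ_[ℓ]] ℚ_[ℓ])
    (hA : IsAbelianVariety per ω₀ ρ χ ω) (hR : IsRiemannForm per ω₀) (γ : Γ) (hχ : χ γ = q)
    (hγ : (ρ γ).charpoly = (∏ i, minpoly ℚ (π i)).map (algebraMap ℚ ℚ_[ℓ]))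
    (hD : ∀ i, 8 * Pool.Agent.Q43.FS.defectAt K π i < finrank ℚ (K i)) :
    ∃ F : Subalgebra ℚ (Module.End ℚ H),
      (∀ P ∈ F, IsCentral per P) ∧
      (∃ (M : ℕ) (r : (ℂ ≃+* ℂ) →* (Matrix (Fin M) (Fin M) ℚ)ˣ),
        M ≤ Pool.Agent.Q43.RP.defect K π ∧
        ((r starRingAut : (Matrix (Fin M) (Fin M) ℚ)ˣ) : Matrix (Fin M) (Fin M) ℚ) = -1 ∧
        (∀ σ, r σ = 1 ↔ ∀ P ∈ F, ∀ z : ℂ,
          (P.charpoly.map (algebraMap ℚ ℂ)).IsRoot z → σ z = z) ∧
        (M = 0 → ∀ m : ℕ, GeneratedInCodimension ρ χ m)) ∧
      (∀ m : ℕ, LargeMultiplicities per (2 * m) → GeneratedInCodimension ρ χ m) ∧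
      ∀ (m : ℕ) (φ : MultilinearMap ℚ_[ℓ] (fun _ : Fin m × Fin 2 => ℚ_[ℓ] ⊗[ℚ] H) ℚ_[ℓ]),
        IsTateTensor ρ χ m φ → φ ∈ combinations ℚ_[ℓ] (divisorWeilProducts per F m) := by
  obtain ⟨j⟩ := Pool.Agent.Y447.CL.emb ℓ
  have hq' : (0 : ℚ) < (q : ℚ) := Nat.cast_pos.2 hq
  have hweil' : ∀ i, ∀ φ : K i →+* ℂ, ‖φ (π i)‖ ^ 2 = (((q : ℚ) : ℝ)) := by
    intro i φ
    rw [hweil]
    norm_cast
  have hsf := Pool.Agent.Q43.FS.shortFree_local K hq' π hweil' (k := 4) (fun i => by
    have h1 := hD i
    omega)
  obtain ⟨F, h1, h2, ⟨M, r, hM, hr1, hr2, hr3⟩, h4, h5⟩ :=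
    Pool.Agent.Q43.FS.structure_frob K j hq π hweil hsf hR hA γ hχ hγ
  refine ⟨F, fun P hP => ⟨h2 P hP, h1 P hP⟩, ⟨M, r, hM, hr1, hr2, hr3⟩,
    fun m hm => h4 m fun P hP hP' => hm P ⟨hP, hP'⟩, fun m φ hφ => ?_⟩
  refine Submodule.span_mono ?_ (h5 m φ hφ)
  rintro φ' ⟨ψ, ⟨s, m', e, β, w, P, hβ, hP, hw, hw', rfl⟩, hφ'⟩
  exact ⟨_, ⟨s, m', e, β, w, P, hβ, hP, ⟨hw, fun g h hg hh v => hw' _ ⟨g, h, hg, hh, rfl⟩ v⟩,
    fun v => Pool.Agent.Q43.HL.prodT_apply e β w P v⟩, hφ'⟩

end Pool.Agent.Results.MP_0fca13_ag.FrobeniusStructure
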